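import Pool.Agent.H99.ADJ.Base

/-! # Project ADJ, module EXT: the exterior of a disk -/

set_option autoImplicit false

open MeasureTheory ProbabilityTheory Set Filter Topology
open scoped NNReal ENNReal NNRat

namespace Pool.ADJ

private theorem rank_pl : 1 < Module.rank ℝ Pl := by
  rw [rank_fin_fun]
  exact_mod_cast one_lt_two

private theorem preconn_ext (a : Pl) (r : ℝ) : IsPreconnected (Metric.closedBall a r)ᶜ := by
  rcases lt_or_ge r 0 with hr | hr
  · rw [Metric.closedBall_eq_empty.2 hr, compl_empty]
    exact isPreconnected_univ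
  · have h0 : IsConnected ({(0 : Pl)}ᶜ : Set Pl) :=
      isConnected_compl_singleton_of_one_lt_rank rank_pl 0
    have himg : (Metric.closedBall a r)ᶜ = (fun x : Pl => a + (1 + r / ‖x‖) • x) '' ({0}ᶜ) := by
      ext y
      simp only [mem_compl_iff, Metric.mem_closedBall, not_le, mem_image, mem_singleton_iff]
      constructor
      · intro hy
        rw [dist_eq_norm] at hy
        have hpos : 0 < ‖y - a‖ := lt_of_le_of_lt hr hy
        have hne : y - a ≠ 0 := norm_pos_iff.1 hpos
        have hc : 0 < (‖y - a‖ - r) / ‖y - a‖ := div_pos (sub_pos.2 hy) hpos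
        refine ⟨((‖y - a‖ - r) / ‖y - a‖) • (y - a), smul_ne_zero hc.ne' hne, ?_⟩
        have hn : ‖((‖y - a‖ - r) / ‖y - a‖) • (y - a)‖ = ‖y - a‖ - r := by
          rw [norm_smul, Real.norm_eq_abs, abs_of_pos hc]
          field_simp
        rw [hn, smul_smul]
        have hs : (1 + r / (‖y - a‖ - r)) * ((‖y - a‖ - r) / ‖y - a‖) = 1 := by
          have : ‖y - a‖ - r ≠ 0 := (sub_pos.2 hy).ne'
          field_simp
          ring
        rw [hs, one_smul]
        abel
      · rintro ⟨x, hx, rfl⟩
        have hpos : 0 < ‖x‖ := norm_pos_iff.2 hx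
        have hc : 0 < 1 + r / ‖x‖ := by positivity
        rw [dist_eq_norm, add_sub_cancel_left, norm_smul, Real.norm_eq_abs, abs_of_pos hc]
        field_simp
        linarith
    rw [himg]
    refine h0.isPreconnected.image _ ?_
    refine continuousOn_const.add (ContinuousOn.smul (continuousOn_const.add
      (continuousOn_const.div continuous_norm.continuousOn ?_)) continuousOn_id)
    intro x hx
    exact norm_ne_zero_iff.2 hx

private theorem unbdd_ext (a : Pl) (r : ℝ) : ¬ Bornology.IsBounded (Metric.closedBall a r)ᶜ := by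
  intro hb
  have hu : Bornology.IsBounded (univ : Set Pl) := by
    rw [← union_compl_self (Metric.closedBall a r)]
    exact Metric.isBounded_closedBall.union hb
  exact NormedSpace.unbounded_univ ℝ Pl hu

theorem ext_thm : S_EXT := by
  have key : ∀ (K : Set Pl) (a : Pl) (r : ℝ), K ⊆ Metric.closedBall a r → ∀ x : Pl,
      x ∉ Metric.closedBall a r → (Metric.closedBall a r)ᶜ ⊆ connectedComponentIn Kᶜ x := by
    intro K a r hK x hx
    exact (preconn_ext a r).subset_connectedComponentIn hx (compl_subset_compl.2 hK)
  constructor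
  · intro K a r hK x y hx hy
    have h1 := key K a r hK x hx
    refine ⟨fun hb => unbdd_ext a r (hb.subset h1), ?_⟩
    exact connectedComponentIn_eq (h1 hy)
  · intro K hK x y hx hy hbx hby
    obtain ⟨r, hr⟩ := hK.subset_closedBall (0 : Pl)
    have pick : ∀ z : Pl, ¬ Bornology.IsBounded (connectedComponentIn Kᶜ z) →
        ∃ w ∈ connectedComponentIn Kᶜ z, w ∉ Metric.closedBall (0 : Pl) r := by
      intro z hz
      by_contra hcon
      push Not at hcon
      exact hz (Metric.isBounded_closedBall.subset hcon)
    obtain ⟨w, hw, hw'⟩ := pick x hbx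
    obtain ⟨w2, hw2, hw2'⟩ := pick y hby
    have e1 := connectedComponentIn_eq hw
    have e2 := connectedComponentIn_eq hw2
    have h1 := key K 0 r hr w hw'
    have e3 := connectedComponentIn_eq (h1 hw2')
    rw [e1, e3, e2]

end Pool.ADJ
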