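import Pool.Agent.H99.ADJ.Base

/-! # Project ADJ, module INV: invariance under homeomorphisms -/

set_option autoImplicit false

open MeasureTheory ProbabilityTheory Set Filter Topology
open scoped NNReal ENNReal NNRat

namespace Pool.ADJ

private theorem comp_img (φ : Pl ≃ₜ Pl) (K : Set Pl) (u : Pl) (hu : u ∉ K) :
    φ '' connectedComponentIn Kᶜ u = connectedComponentIn (φ '' K)ᶜ (φ u) := by
  rw [φ.image_connectedComponentIn (show u ∈ Kᶜ from hu), φ.image_compl]

private theorem not_mem_img (φ : Pl ≃ₜ Pl) (K : Set Pl) (u : Pl) (hu : u ∉ K) : φ u ∉ φ '' K := by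
  rintro ⟨v, hv, e⟩
  exact hu (φ.injective e ▸ hv)

private theorem step_img (φ : Pl ≃ₜ Pl) (K : Set Pl) (u v : Pl) (h : Step K u v) :
    Step (φ '' K) (φ u) (φ v) := by
  obtain ⟨h1, h2, w, hw1, hw2⟩ := h
  refine ⟨not_mem_img φ K u h1, not_mem_img φ K v h2, φ w, ?_, ?_⟩
  · rw [← comp_img φ K u h1, ← φ.image_closure]
    exact mem_image_of_mem _ hw1
  · rw [← comp_img φ K v h2, ← φ.image_closure]
    exact mem_image_of_mem _ hw2

private theorem inf_img (φ : Pl ≃ₜ Pl) (hφ : ∀ A : Set Pl, Bornology.IsBounded A →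
    Bornology.IsBounded (φ.symm '' A)) (K : Set Pl) (x : Pl) (h : LinkedInf K x) :
    LinkedInf (φ '' K) (φ x) := by
  obtain ⟨y, h1, h2, h3⟩ := h
  refine ⟨φ y, not_mem_img φ K y h1, fun hb => h2 ?_, ?_⟩
  · rw [← comp_img φ K y h1] at hb
    have := hφ _ hb
    rwa [← image_comp, φ.symm_comp_self, image_id] at this
  · exact Relation.ReflTransGen.lift φ (fun a b hab => step_img φ K a b hab) _ _ h3

theorem inv_thm : S_INV := by
  intro φ h1 h2 K x
  constructor
  · intro h
    have := inf_img φ.symm (by simpa using h1) (φ '' K) (φ x) h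
    rwa [← image_comp, φ.symm_comp_self, image_id, φ.symm_apply_apply] at this
  · exact inf_img φ h2 K x

end Pool.ADJ
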