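import Pool.Agent.H99.ADJ.Fin0

/-! # Project ADJ, module ONE: deterministic part of the connected case -/

set_option autoImplicit false

open MeasureTheory ProbabilityTheory Set Filter Topology
open scoped NNReal ENNReal NNRat

namespace Pool.ADJ

private theorem dense_rat : DenseRange (fun (x : Fin 2 → ℚ) => (fun i => (x i : ℝ) : Pl)) :=
  DenseRange.piMap (fun _ => Rat.denseRange_cast)

private theorem exists_rat {O : Set Pl} (hO : IsOpen O) (hne : O.Nonempty) :
    ∃ x : Fin 2 → ℚ, x ≠ 0 ∧ (fun i => (x i : ℝ)) ∈ O := by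
  have hO' : IsOpen (O \ {0}) := hO.sdiff isClosed_singleton
  have hne' : (O \ {0}).Nonempty := by
    by_contra hcon
    rw [not_nonempty_iff_eq_empty, sdiff_eq_empty] at hcon
    have h1 : O = {0} := Subset.antisymm hcon (by
      obtain ⟨z, hz⟩ := hne
      have : z = 0 := hcon hz
      rw [← this]
      exact singleton_subset_iff.2 hz)
    rw [h1] at hO
    exact not_isOpen_singleton (0 : Pl) hO
  obtain ⟨x, hx⟩ := dense_rat.exists_mem_open hO' hne'
  refine ⟨x, fun h0 => hx.2 ?_, hx.1⟩
  subst h0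
  ext i
  simp

private theorem step_symm {K : Set Pl} {u v : Pl} (h : Step K u v) : Step K v u := by
  obtain ⟨h1, h2, h3⟩ := h
  exact ⟨h2, h1, by rwa [inter_comm]⟩

private theorem linked_symm {K : Set Pl} {u v : Pl} (h : Linked K u v) : Linked K v u := by
  unfold Linked at *
  induction h with
  | refl => exact Relation.ReflTransGen.refl
  | tail _ h2 ih => exact Relation.ReflTransGen.head (step_symm h2) ih

private theorem step_of_eq {K : Set Pl} {u v : Pl} (hu : u ∉ K) (hv : v ∉ K)
    (h : connectedComponentIn Kᶜ u = connectedComponentIn Kᶜ v) : Step K u v := by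
  refine ⟨hu, hv, u, subset_closure (mem_connectedComponentIn hu), ?_⟩
  rw [← h]
  exact subset_closure (mem_connectedComponentIn hu)

theorem one_thm (h_EXT : S_EXT) : S_ONE := by
  intro f hf H s t hs hst x y hx hy
  set K := f '' Icc s t with hK
  have hKc : IsCompact K := isCompact_Icc.image hf
  have hKo : IsOpen Kᶜ := hKc.isClosed.isOpen_compl
  have key : ∀ z : Pl, z ∉ K → ∃ w, w ∉ K ∧ ¬ Bornology.IsBounded (connectedComponentIn Kᶜ w) ∧
      Linked K z w := by
    intro z hz
    have hzc : z ∈ Kᶜ := hz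
    obtain ⟨r, hr0, hr⟩ := exists_rat (hKo.connectedComponentIn (x := z))
      ⟨z, mem_connectedComponentIn hzc⟩
    obtain ⟨n, hn⟩ := exists_nat_ge t
    have hmono : K ⊆ f '' Icc 0 (n : ℝ) := image_mono (Icc_subset_Icc hs hn)
    obtain ⟨w, hw1, hw2, hw3⟩ := LinkedInf.mono hmono (H n r hr0)
    refine ⟨w, hw1, hw2, ?_⟩
    exact Relation.ReflTransGen.head (step_of_eq hz (connectedComponentIn_subset _ _ hr)
      (connectedComponentIn_eq hr)) hw3
  obtain ⟨w1, a1, a2, a3⟩ := key x hx
  obtain ⟨w2, b1, b2, b3⟩ := key y hy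
  have e := h_EXT.2 K hKc.isBounded w1 w2 a1 b1 a2 b2
  exact (a3.tail (step_of_eq a1 b1 e)).trans (linked_symm b3)

end Pool.ADJ
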