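import Pool.Agent.H99.ADJ.Fin0

/-! # Project ADJ, module TWB: deterministic part of the disconnected case, (b) -/

set_option autoImplicit false

open MeasureTheory ProbabilityTheory Set Filter Topology
open scoped NNReal ENNReal NNRat

namespace Pool.ADJ

private theorem dense_rat' : DenseRange (fun (x : Fin 2 → ℚ) => (fun i => (x i : ℝ) : Pl)) :=
  DenseRange.piMap (fun _ => Rat.denseRange_cast)

private theorem exists_rat' {O : Set Pl} (hO : IsOpen O) (hne : O.Nonempty) :
    ∃ x : Fin 2 → ℚ, x ≠ 0 ∧ (fun i => (x i : ℝ)) ∈ O := by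
  have hO' : IsOpen (O \ {0}) := hO.sdiff isClosed_singleton
  have hne' : (O \ {0}).Nonempty := by
    by_contra hcon
    rw [not_nonempty_iff_eq_empty, sdiff_eq_empty] at hcon
    have h1 : O = {0} := Subset.antisymm hcon (by
      obtain ⟨z, hz⟩ := hne
      have : z = 0 := hcon hz
      rw [← this]
      exact singleton_subset_iff.2 hz)
    rw [h1] at hO
    exact not_isOpen_singleton (0 : Pl) hO
  obtain ⟨x, hx⟩ := dense_rat'.exists_mem_open hO' hne'
  refine ⟨x, fun h0 => hx.2 ?_, hx.1⟩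
  subst h0
  ext i
  simp

private theorem step_symm' {K : Set Pl} {u v : Pl} (h : Step K u v) : Step K v u := by
  obtain ⟨h1, h2, h3⟩ := h
  exact ⟨h2, h1, by rwa [inter_comm]⟩

private theorem linked_symm' {K : Set Pl} {u v : Pl} (h : Linked K u v) : Linked K v u := by
  unfold Linked at *
  induction h with
  | refl => exact Relation.ReflTransGen.refl
  | tail _ h2 ih => exact Relation.ReflTransGen.head (step_symm' h2) ih

/-- the recursively defined radii -/
private noncomputable def rad (p : Pl) (g : {e : ℝ // 0 < e} → Pl)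
    (hg : ∀ e, 0 < dist (g e) p) (e0 : {e : ℝ // 0 < e}) : ℕ → {e : ℝ // 0 < e}
  | 0 => e0
  | n + 1 => ⟨min (rad p g hg e0 n).1 (dist (g (rad p g hg e0 n)) p),
      lt_min (rad p g hg e0 n).2 (hg _)⟩

theorem twb_thm : S_TWB := by
  intro f hf hrat hV s t hs hst O hO hne
  set K := f '' Icc s t with hK
  obtain ⟨_, hzO, u, hu, rfl⟩ := hne
  -- a rational time
  have hpre : IsOpen (f ⁻¹' O) := hO.preimage hf
  have hcl : u ∈ closure (Ioo s t) := by
    rw [closure_Ioo hst.ne]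
    exact hu
  obtain ⟨v, hv1, hv2⟩ := mem_closure_iff.1 hcl _ hpre hzO
  obtain ⟨r, hr1, hr2⟩ := Rat.denseRange_cast.exists_mem_open
    (hpre.inter isOpen_Ioo) ⟨v, hv1, hv2⟩
  have hr0 : 0 ≤ r := by
    have : (0 : ℝ) ≤ (r : ℝ) := hs.trans hr2.1.le
    exact_mod_cast this
  lift r to ℚ≥0 using hr0
  have hcast : ((r : ℚ) : ℝ) = (r : ℝ) := by simp
  rw [hcast] at hr2
  have hr1' : f (r : ℝ) ∈ O := by
    have := hr1
    rw [hcast] at this
    exact this
  set p := f (r : ℝ) with hp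
  have hpK : p ∈ K := ⟨r, ⟨hr2.1.le, hr2.2.le⟩, rfl⟩
  obtain ⟨e0, he0, hball⟩ := Metric.isOpen_iff.1 hO p hr1'
  obtain ⟨n0, hn0⟩ := exists_nat_ge t
  have hmono : K ⊆ f '' Icc 0 (n0 : ℝ) := image_mono (Icc_subset_Icc hs hn0)
  have P : ∀ e : {e : ℝ // 0 < e}, ∃ x : Pl, x ∉ K ∧ 0 < dist x p ∧
      ∀ y, Linked K x y → dist y p < e.1 := by
    rintro ⟨e, he⟩
    obtain ⟨V, hVn, hVe⟩ := hV r s t hs hr2.1.le hr2.2 e he
    obtain ⟨W, hWV, hWo, hpW⟩ := mem_nhds_iff.1 hVn
    obtain ⟨x, hx0, hxW⟩ := exists_rat' hWo ⟨p, hpW⟩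
    have hxK : (fun i => (x i : ℝ)) ∉ K := fun h => hrat n0 x hx0 (hmono h)
    refine ⟨fun i => (x i : ℝ), hxK, ?_, fun y hy => hVe _ (hWV hxW) hxK y hy⟩
    rw [dist_pos]
    intro h
    rw [h] at hxK
    exact hxK hpK
  choose g hg1 hg2 hg3 using P
  set e := rad p g hg2 ⟨e0, he0⟩ with hedef
  have hanti : ∀ n k : ℕ, (e (n + k)).1 ≤ (e n).1 := by
    intro n k
    induction k with
    | zero => exact le_rfl
    | succ k ih =>
      refine le_trans ?_ ih
      exact min_le_left _ _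
  have hlt : ∀ m n : ℕ, m < n → (e n).1 ≤ dist (g (e m)) p := by
    intro m n hmn
    obtain ⟨k, rfl⟩ := Nat.exists_eq_add_of_lt hmn
    have h1 := hanti (m + 1) k
    rw [show m + 1 + k = m + k + 1 by ring] at h1
    exact h1.trans (min_le_right _ _)
  refine ⟨fun n => g (e n), fun n => hg1 _, ?_, ?_⟩
  · have aux : ∀ m n : ℕ, m < n → ¬ Linked K (g (e n)) (g (e m)) := by
      intro m n hmn h
      have h1 := hg3 (e n) _ h
      exact absurd (hlt m n hmn) (not_le.2 h1)
    intro m n hmn h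
    rcases lt_or_gt_of_ne hmn with h1 | h1
    · exact aux m n h1 (linked_symm' h)
    · exact aux n m h1 h
  · intro n y hy
    apply hball
    rw [Metric.mem_ball]
    have h1 := hg3 (e n) y hy
    have h2 := hanti 0 n
    rw [zero_add] at h2
    exact lt_of_lt_of_le h1 h2

end Pool.ADJ
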